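import Pool.Agent.Hft.Final

/-!
# Conjugacy of Toeplitz subshifts of finite topological rank is hyperfinite

`SS` is the space of subshifts over the alphabets `{0, …, n-1}`, `n ≥ 2`, with the Borel structure of
the Vietoris topology, and `TT` is the set of Toeplitz subshifts of finite topological rank.
Conjugacy on `TT` is hyperfinite; moreover there is a Borel set `B` containing `TT` on which
conjugacy is hyperfinite.
-/

namespace Pool.Agent.Results.MP_79e803_lc.Hyperfinite

open Hft

theorem result : (∃ B : Set SS, MeasurableSet B ∧ TT ⊆ B ∧
      IsHyperfinite (fun S T : B => SConj S.1 T.1)) ∧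
    IsHyperfinite (fun S T : TT => SConj S.1 T.1) :=
  Hft.final

end Pool.Agent.Results.MP_79e803_lc.Hyperfinite
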